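import Mathlib
import Pool.Agent.V11180.BG.Dens

/-!
# MP_0fda35_co: Bohr sets in sums of endomorphic images of a dense set

For `d ≥ 3` endomorphisms of an abelian group with sum zero, at least three of which have images
of finite index (in particular if all do), and a set `A` of positive upper Banach density, the set
`φ₁(A) + ⋯ + φ_d(A)` contains a Bohr set whose rank and radius are controlled by `d`, the upper
Banach density of `A` and the (three) indices. No commutativity, no countability.
-/

set_option autoImplicit false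

open Finset

namespace Pool.Agent.Results.MP_0fda35_co.BohrInSums

open Pool.Agent.V11180.BG

universe u

/-- the Bohr set of the characters in `X` and radius `η`; its rank is the number of elements
of `X` -/
def bohr {G : Type u} [AddCommGroup G] (X : Finset (AddChar G Circle)) (η : ℝ) : Set G :=
  {g | ∀ χ ∈ X, ‖((χ g : Circle) : ℂ) - 1‖ < η}

/-- the set `φ₁(A) + ⋯ + φ_d(A)` -/
def imageSum {G : Type u} [AddCommGroup G] {d : ℕ} (φ : Fin d → G →+ G) (A : Set G) : Set G :=
  {g | ∃ a : Fin d → G, (∀ j, a j ∈ A) ∧ g = ∑ j, φ j (a j)}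

/-- **Bohr sets in sums of endomorphic images of a dense set.** The rank bound `k` and the radius
`η` depend only on `d`, `δ` and the bound `n` for three of the indices. Here `dstar A` is the
supremum of `m(1_A)` over all translation invariant means `m` on the bounded functions. -/
theorem result (d : ℕ) (hd : 3 ≤ d) (δ : ℝ) (hδ : 0 < δ) (n : ℕ) :
    ∃ k : ℕ, ∃ η : ℝ, 0 < η ∧
      ∀ (G : Type u) [AddCommGroup G] (φ : Fin d → G →+ G), ∑ j, φ j = 0 →
        (∃ I : Finset (Fin d), 3 ≤ I.card ∧
          ∀ j ∈ I, (φ j).range.index ≠ 0 ∧ (φ j).range.index ≤ n) →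
        ∀ A : Set G, δ ≤ dstar A →
          ∃ X : Finset (AddChar G Circle), X.card ≤ k ∧ bohr X η ⊆ imageSum φ A := by
  obtain ⟨k, rfl⟩ : ∃ k, d = k + 1 := ⟨d - 1, by omega⟩
  obtain ⟨K, η, hη, h⟩ := density.{u} k δ hδ n
  refine ⟨K, η, hη, ?_⟩
  rintro G _ φ hφ ⟨I, hI, hidx⟩ A hA
  obtain ⟨i, hi, j, hj, l, hl, hij, hil, hjl⟩ := Finset.two_lt_card.1 hI
  obtain ⟨X, hX, hX2⟩ := h G φ hφ i j l hij hil hjl (by
    rintro q (rfl | rfl | rfl)
    · exact hidx _ hi
    · exact hidx _ hj
    · exact hidx _ hl) A hA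
  refine ⟨X, hX, fun g hg => ?_⟩
  obtain ⟨a, ha, hag⟩ := hX2 g hg
  exact ⟨a, ha, hag.symm⟩

end Pool.Agent.Results.MP_0fda35_co.BohrInSums
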